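import Pool.Agent.H70.PW.Targets

/-!
# Module CPI: an algebraic identity
-/

set_option autoImplicit false

namespace Pool.Agent.H2.PW

open Finset Pool.Agent.H70.PW

/-- the identity on a finite set of a linear order, by induction on the largest element -/
theorem CPI_aux {α : Type} [LinearOrder α] [DecidableEq α] (z d : α → ℝ) (U : Finset α) :
    ∀ L : ℕ, ∏ s ∈ U, (z s + d s) = (∑ I ∈ U.powerset.filter (fun I : Finset α => I.card < L),
      (∏ s ∈ I, d s) * ∏ s ∈ U \ I, z s) +
    ∑ I ∈ powersetCard L U, (∏ s ∈ I, d s) *
      ∏ s ∈ U \ I, (if ∃ s' ∈ I, s' < s then z s else z s + d s) := by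
  induction U using Finset.induction_on_max with
  | empty =>
    intro L
    rcases Nat.eq_zero_or_pos L with rfl | hL
    · simp
    · have h1 : powersetCard L (∅ : Finset α) = ∅ := by
        apply Finset.powersetCard_eq_empty.mpr
        simpa using hL
      rw [h1]
      simp [Finset.filter_singleton, hL]
  | insert t U ht ih =>
    intro L
    have htU : t ∉ U := fun h => lt_irrefl _ (ht t h)
    have hins : ∀ I ⊆ U, insert t U \ I = insert t (U \ I) := by
      intro I hI
      rw [Finset.insert_sdiff_of_notMem _ (fun h => htU (hI h))]
    have hins2 : ∀ I ⊆ U, insert t U \ insert t I = U \ I := by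
      intro I hI
      ext s
      simp only [Finset.mem_sdiff, Finset.mem_insert, not_or]
      constructor
      · rintro ⟨h1, h2, h3⟩
        rcases h1 with h1 | h1
        · exact absurd h1 h2
        · exact ⟨h1, h3⟩
      · rintro ⟨h1, h2⟩
        exact ⟨Or.inr h1, fun h => htU (h ▸ h1), h2⟩
    have hnot : ∀ I ⊆ U, t ∉ U \ I := fun I _ h => htU (Finset.mem_sdiff.mp h).1
    rw [Finset.prod_insert htU]
    rcases Nat.eq_zero_or_pos L with rfl | hL
    · simp [Finset.prod_insert htU]
    · obtain ⟨l, rfl⟩ : ∃ l, L = l + 1 := ⟨L - 1, by omega⟩
      -- first sum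
      have hA : ∑ I ∈ (insert t U).powerset.filter (fun I : Finset α => I.card < l + 1),
          (∏ s ∈ I, d s) * ∏ s ∈ insert t U \ I, z s =
          z t * (∑ I ∈ U.powerset.filter (fun I : Finset α => I.card < l + 1),
            (∏ s ∈ I, d s) * ∏ s ∈ U \ I, z s) +
          d t * (∑ I ∈ U.powerset.filter (fun I : Finset α => I.card < l),
            (∏ s ∈ I, d s) * ∏ s ∈ U \ I, z s) := by
        rw [Finset.sum_filter, Finset.sum_powerset_insert htU, Finset.mul_sum, Finset.mul_sum,
          Finset.sum_filter, Finset.sum_filter]
        congr 1
        · refine Finset.sum_congr rfl fun I hI => ?_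
          have hI' := Finset.mem_powerset.mp hI
          rw [hins I hI', Finset.prod_insert (hnot I hI')]
          split_ifs
          · ring
          · rfl
        · refine Finset.sum_congr rfl fun I hI => ?_
          have hI' := Finset.mem_powerset.mp hI
          have htI : t ∉ I := fun h => htU (hI' h)
          rw [hins2 I hI', Finset.prod_insert htI, Finset.card_insert_of_notMem htI]
          by_cases hc : I.card < l
          · rw [if_pos (by omega), if_pos hc]; ring
          · rw [if_neg (by omega), if_neg hc]
      have hB : ∑ I ∈ powersetCard (l + 1) (insert t U), (∏ s ∈ I, d s) *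
          ∏ s ∈ insert t U \ I, (if ∃ s' ∈ I, s' < s then z s else z s + d s) =
          z t * (∑ I ∈ powersetCard (l + 1) U, (∏ s ∈ I, d s) *
            ∏ s ∈ U \ I, (if ∃ s' ∈ I, s' < s then z s else z s + d s)) +
          d t * (∑ I ∈ powersetCard l U, (∏ s ∈ I, d s) *
            ∏ s ∈ U \ I, (if ∃ s' ∈ I, s' < s then z s else z s + d s)) := by
        rw [Finset.powersetCard_succ_insert htU, Finset.sum_union]
        · rw [Finset.sum_image]
          · rw [Finset.mul_sum, Finset.mul_sum]
            congr 1
            · refine Finset.sum_congr rfl fun I hI => ?_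
              obtain ⟨hI', hc⟩ := Finset.mem_powersetCard.mp hI
              rw [hins I hI', Finset.prod_insert (hnot I hI')]
              have hne : I.Nonempty := by
                rw [← Finset.card_pos]; omega
              obtain ⟨s', hs'⟩ := hne
              rw [if_pos ⟨s', hs', ht s' (hI' hs')⟩]
              ring
            · refine Finset.sum_congr rfl fun I hI => ?_
              obtain ⟨hI', hc⟩ := Finset.mem_powersetCard.mp hI
              have htI : t ∉ I := fun h => htU (hI' h)
              rw [hins2 I hI', Finset.prod_insert htI]
              have : ∏ s ∈ U \ I, (if ∃ s' ∈ insert t I, s' < s then z s else z s + d s) =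
                  ∏ s ∈ U \ I, (if ∃ s' ∈ I, s' < s then z s else z s + d s) := by
                refine Finset.prod_congr rfl fun s hs => ?_
                have hsU := (Finset.mem_sdiff.mp hs).1
                have hst := ht s hsU
                have : (∃ s' ∈ insert t I, s' < s) ↔ ∃ s' ∈ I, s' < s := by
                  constructor
                  · rintro ⟨s', h1, h2⟩
                    rcases Finset.mem_insert.mp h1 with rfl | h1
                    · exact absurd h2 (not_lt.mpr hst.le)
                    · exact ⟨s', h1, h2⟩
                  · rintro ⟨s', h1, h2⟩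
                    exact ⟨s', Finset.mem_insert_of_mem h1, h2⟩
                simp only [this]
              rw [this]
              ring
          · intro I hI J hJ hIJ
            have hI' := (Finset.mem_powersetCard.mp hI).1
            have hJ' := (Finset.mem_powersetCard.mp hJ).1
            have h1 : (insert t I).erase t = (insert t J).erase t := by rw [hIJ]
            rwa [Finset.erase_insert (fun h => htU (hI' h)),
              Finset.erase_insert (fun h => htU (hJ' h))] at h1
        · rw [Finset.disjoint_left]
          intro I hI hI2
          obtain ⟨hI', -⟩ := Finset.mem_powersetCard.mp hI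
          obtain ⟨J, -, hJ⟩ := Finset.mem_image.mp hI2
          exact htU (hI' (hJ ▸ Finset.mem_insert_self t J))
      rw [hA, hB]
      have e1 := ih (l + 1)
      have e2 := ih l
      calc (z t + d t) * ∏ s ∈ U, (z s + d s)
          = z t * ∏ s ∈ U, (z s + d s) + d t * ∏ s ∈ U, (z s + d s) := by ring
        _ = _ := by
          nth_rewrite 1 [e1]
          nth_rewrite 1 [e2]
          ring

/-- CPI: an algebraic identity. -/
theorem cpi : T_CPI := by
  intro m L z d _
  have h := CPI_aux z d (univ : Finset (Fin m)) L
  rw [h, Finset.powerset_univ]
  simp only [Finset.compl_eq_univ_sdiff]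
  congr! 6

end Pool.Agent.H2.PW
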