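import Pool.Agent.H70.PW.Targets

/-!
# Module NUC: the conditioned distributions
-/

set_option autoImplicit false

namespace Pool.Agent.H2.PW

open Finset Pool.Agent.H6.NB Pool.Agent.H70.OQ Pool.Agent.H70.PW

theorem NUC_sumW (h2 : Pool.Agent.H6.NB.T_MUP) (b : Bool) (q N : ℕ) :
    ∑ P : Fin N → VV q → Bool, ∏ i, mu b q (P i) = 1 := by
  have h := Finset.prod_univ_sum (fun _ : Fin N => (univ : Finset (VV q → Bool)))
    (fun _ p => mu b q p)
  rw [Fintype.piFinset_univ] at h
  rw [← h]
  simp [(h2 b q).2.1]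

theorem NUC_ic (p : Prop) [Decidable p] : ic p = 1 - (if p then 0 else 1) := by
  unfold ic
  by_cases h : p <;> simp [h]

/-- NUC: the conditioned distributions. -/
theorem nuc_ (h1 : Pool.Agent.H6.NB.T_DCP) (h2 : Pool.Agent.H6.NB.T_MUP) : T_NUC := by
  classical
  intro b q N her
  have hW0 : ∀ P : Fin N → VV q → Bool, 0 ≤ ∏ i, mu b q (P i) := fun P =>
    Finset.prod_nonneg fun i _ => (h2 b q).1 (P i)
  have hW1 := NUC_sumW h2 b q N
  have hD : ∑ p : Fin N → VV q → Bool, (∏ i, mu b q (p i)) * (if DecA q N b p then 0 else 1) ≤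
      er q N := by
    have h := h1 q N b
    unfold er
    refine le_trans (le_of_eq ?_) h
    refine Finset.sum_congr rfl fun p _ => ?_
    by_cases hp : DecA q N b p <;> simp [hp]
  have hZ : nuz b q N = 1 - ∑ p : Fin N → VV q → Bool,
      (∏ i, mu b q (p i)) * (if DecA q N b p then 0 else 1) := by
    have h : nuz b q N = (∑ P : Fin N → VV q → Bool, ∏ i, mu b q (P i)) -
        ∑ p : Fin N → VV q → Bool,
          (∏ i, mu b q (p i)) * (if DecA q N b p then 0 else 1) := by
      unfold nuz
      rw [← Finset.sum_sub_distrib]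
      refine Finset.sum_congr rfl fun p _ => ?_
      rw [NUC_ic]
      ring
    rw [h, hW1]
  have hZ1 : nuz b q N ≤ 1 := by
    rw [hZ]
    have : 0 ≤ ∑ p : Fin N → VV q → Bool,
      (∏ i, mu b q (p i)) * (if DecA q N b p then (0 : ℝ) else 1) := by
      refine Finset.sum_nonneg fun p _ => mul_nonneg (hW0 p) ?_
      split_ifs <;> norm_num
    linarith
  have hZer : 1 - er q N ≤ nuz b q N := by rw [hZ]; linarith
  have hZ0 : 0 < nuz b q N := by linarith
  have hic0 : ∀ p : Prop, 0 ≤ ic p := by
    intro p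
    unfold ic
    by_cases h : p <;> simp [h]
  refine ⟨?_, ?_, ?_, ?_⟩
  · intro P
    unfold nuc
    exact div_nonneg (mul_nonneg (hic0 _) (hW0 P)) hZ0.le
  · unfold nuc
    rw [← Finset.sum_div]
    exact div_self hZ0.ne'
  · intro P hP
    by_contra h
    apply hP
    unfold nuc
    rw [NUC_ic]
    simp [h]
  · have hpt : ∀ P : Fin N → VV q → Bool, |nuc b q N P - ∏ i, mu b q (P i)| =
        ic (DecA q N b P) * (∏ i, mu b q (P i)) * (1 / nuz b q N - 1) +
        ((∏ i, mu b q (P i)) - ic (DecA q N b P) * (∏ i, mu b q (P i))) := by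
      intro P
      have hz : 0 ≤ 1 / nuz b q N - 1 := by
        have : 1 ≤ 1 / nuz b q N := by
          rw [le_div_iff₀ hZ0]
          linarith
        linarith
      unfold nuc
      by_cases h : DecA q N b P
      · have h1 : ic (DecA q N b P) = 1 := by rw [NUC_ic]; simp [h]
        rw [h1, abs_of_nonneg]
        · ring
        · have : (1 * ∏ i, mu b q (P i)) / nuz b q N - ∏ i, mu b q (P i) =
              (∏ i, mu b q (P i)) * (1 / nuz b q N - 1) := by ring
          rw [this]
          exact mul_nonneg (hW0 P) hz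
      · have h1 : ic (DecA q N b P) = 0 := by rw [NUC_ic]; simp [h]
        rw [h1]
        simp [abs_of_nonneg (hW0 P)]
    rw [Finset.sum_congr rfl fun P _ => hpt P, Finset.sum_add_distrib, Finset.sum_sub_distrib,
      ← Finset.sum_mul, hW1]
    have : ∑ P : Fin N → VV q → Bool, ic (DecA q N b P) * (∏ i, mu b q (P i)) = nuz b q N := rfl
    rw [this]
    have h3 : nuz b q N * (1 / nuz b q N - 1) = 1 - nuz b q N := by
      field_simp
    rw [h3]
    linarith

end Pool.Agent.H2.PW
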